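import Mathlib
import Pool.Agent.MP_96f5a9_co.gw.All
import Pool.Agent.MP_96f5a9_co.h96.Thin

set_option autoImplicit false

namespace Pool.Agent.Results.MP_96f5a9_co.GWCLarge

/-- The generalized Wilf inequality in every dimension for all Frobenius GNS with many minimal
generators, and for all those whose Frobenius element has a large coordinate and at most one
small coordinate. -/
theorem result :
    ∀ d : ℕ, 1 ≤ d → ∃ C : ℕ,
    ∀ S : AddSubmonoid (Fin d → ℕ),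
      ((S : Set (Fin d → ℕ))ᶜ).Finite →
      ∀ f : Fin d → ℕ, f ∉ S → (∀ h : Fin d → ℕ, h ∉ S → h ≤ f) →
        (C ≤ Set.ncard {x : Fin d → ℕ | x ∈ S ∧ x ≠ 0 ∧
              ∀ a ∈ S, ∀ b ∈ S, a + b = x → a = 0 ∨ b = 0} ∨
          ((∃ i : Fin d, C ≤ f i) ∧ ∃ j : Fin d, ∀ i : Fin d, i ≠ j → C ≤ f i)) →
        d * ∏ i : Fin d, (f i + 1) ≤
          Set.ncard {x : Fin d → ℕ | x ∈ S ∧ x ≠ 0 ∧
              ∀ a ∈ S, ∀ b ∈ S, a + b = x → a = 0 ∨ b = 0} *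
          Set.ncard {x : Fin d → ℕ | x ∈ S ∧ ∃ h : Fin d → ℕ, h ∉ S ∧ x ≤ h} := by
  intro d hd
  rcases Nat.eq_or_lt_of_le hd with h1 | h2
  · subst h1
    obtain ⟨C, hC⟩ := Pool.Agent.MP_96f5a9_co.GW.goalAll 1 le_rfl
    refine ⟨C, fun S _ f hf hle h => hC S f hf hle (h.imp id ?_)⟩
    rintro ⟨⟨i, hi⟩, _⟩ k
    rwa [Subsingleton.elim k i]
  · obtain ⟨C, hC⟩ := Pool.Agent.MP_96f5a9_co.h96.combine d h2
      (Pool.Agent.MP_96f5a9_co.GW.goalAll d hd)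
    exact ⟨C, fun S _ f hf hle h => hC S f hf hle (h.imp id And.right)⟩

end Pool.Agent.Results.MP_96f5a9_co.GWCLarge
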