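import Mathlib
import Pool.Agent.MP_96f5a9_co.LogTwo

set_option autoImplicit false

namespace Pool.Agent.Results.MP_96f5a9_co.WilfCeil

open Finset Pool.Agent.MP_96f5a9_co

/-- For every numerical semigroup with Frobenius number `F` and multiplicity `m`,
`e * n ≥ ∑_{j = 1}^{m} ⌈(F + j) / (m + j - 1)⌉`. -/
theorem result (S : AddSubmonoid ℕ) (F m : ℕ) (hF : F ∉ S) (hF' : ∀ h, h ∉ S → h ≤ F)
    (hm : IsLeast {x | x ∈ S ∧ x ≠ 0} m) :
    ∑ j ∈ Finset.Icc 1 m, ⌈((F : ℝ) + j) / (m + j - 1)⌉₊ ≤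
      Set.ncard {x : ℕ | x ∈ S ∧ x ≠ 0 ∧ ∀ a ∈ S, ∀ b ∈ S, a + b = x → a = 0 ∨ b = 0} *
        Set.ncard {x : ℕ | x ∈ S ∧ ∃ h : ℕ, h ∉ S ∧ x ≤ h} := by
  classical
  have hbig : ∀ x, F < x → x ∈ S := fun x hx => by
    by_contra h
    exact absurd (hF' x h) (by omega)
  have hm0 : 0 < m := Nat.pos_of_ne_zero hm.1.2
  have h := main_ceil S F m hbig hm0 hm.1.1 fun g hg => hm.2 ⟨hg.1, hg.2.1⟩
  have hn : Set.ncard {x : ℕ | x ∈ S ∧ ∃ h : ℕ, h ∉ S ∧ x ≤ h} =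
      ((range (F + 1)).filter (· ∈ S)).card := by
    rw [← Set.ncard_coe_finset]
    congr 1
    ext x
    simp only [Set.mem_ofPred_eq, coe_filter, mem_range]
    constructor
    · rintro ⟨h1, h, h2, h3⟩
      exact ⟨by have := hF' h h2; omega, h1⟩
    · rintro ⟨h1, h2⟩
      exact ⟨h2, F, hF, by omega⟩
  rw [hn]
  exact h

end Pool.Agent.Results.MP_96f5a9_co.WilfCeil
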