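import Mathlib
import Pool.Agent.MP_96f5a9_co.h47.Main

set_option autoImplicit false

namespace Pool.Agent.Results.MP_96f5a9_co.WilfExplicit

open Pool.Agent.MP_96f5a9_co

/-- Wilf's inequality `F + 1 ≤ e * n` holds for every numerical semigroup whose Frobenius number
`F` is at least the tower of five exponentials to base two above `200`. -/
theorem result (S : AddSubmonoid ℕ) (F : ℕ) (hF : F ∉ S) (hF' : ∀ h, h ∉ S → h ≤ F)
    (hbig : 200 ≤ Nat.log 2 (Nat.log 2 (Nat.log 2 (Nat.log 2 (Nat.log 2 F))))) :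
    F + 1 ≤
      Set.ncard {x : ℕ | x ∈ S ∧ x ≠ 0 ∧ ∀ a ∈ S, ∀ b ∈ S, a + b = x → a = 0 ∨ b = 0} *
        Set.ncard {x : ℕ | x ∈ S ∧ ∃ h : ℕ, h ∉ S ∧ x ≤ h} := by
  classical
  have hb : ∀ x, F < x → x ∈ S := fun x hx => by
    by_contra h
    exact absurd (hF' x h) (by omega)
  have hex : ∃ m, m ∈ S ∧ m ≠ 0 := ⟨F + 1, hb _ (Nat.lt_succ_self _), Nat.succ_ne_zero _⟩
  rw [H59.count_eq S F hF hF']
  exact H47.wilf_tower S F (Nat.find hex) hb (Nat.pos_of_ne_zero (Nat.find_spec hex).2)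
    (Nat.find_spec hex).1 (fun x hx h0 => Nat.find_min' hex ⟨hx, h0⟩) hbig

end Pool.Agent.Results.MP_96f5a9_co.WilfExplicit
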