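import Mathlib
import Pool.Agent.MP_96f5a9_co.h93.Final

set_option autoImplicit false

namespace Pool.Agent.Results.MP_96f5a9_co.WilfLinearDepth

open Finset Pool.Agent.MP_96f5a9_co

/-- Wilf's inequality `F + 1 ≤ e * n` holds for every numerical semigroup with Frobenius number
`F`, multiplicity `m` and embedding dimension `e` such that `F ≥ C * e * m` or `m ≥ D ^ e`, where
`C = 2 ^ 26`, `D = 2 ^ 28` for `e ≥ 2 ^ 12` and `C = 2 ^ 36 * e ^ 4`, `D = 2 ^ 36 * e ^ 5` for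
smaller `e`. -/
theorem result (S : AddSubmonoid ℕ) (F m e : ℕ) (hF : F ∉ S) (hF' : ∀ h, h ∉ S → h ≤ F)
    (hm : IsLeast {x | x ∈ S ∧ x ≠ 0} m)
    (he : e = Set.ncard {x : ℕ | x ∈ S ∧ x ≠ 0 ∧ ∀ a ∈ S, ∀ b ∈ S, a + b = x → a = 0 ∨ b = 0})
    (hbig : (if e < 2 ^ 12 then 2 ^ 36 * e ^ 4 else 2 ^ 26) * e * m ≤ F ∨
      (if e < 2 ^ 12 then 2 ^ 36 * e ^ 5 else 2 ^ 28) ^ e ≤ m) :
    F + 1 ≤ e * Set.ncard {x : ℕ | x ∈ S ∧ ∃ h : ℕ, h ∉ S ∧ x ≤ h} := by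
  classical
  have hb : ∀ x, F < x → x ∈ S := fun x hx => by
    by_contra h
    exact absurd (hF' x h) (by omega)
  have hm0 : 0 < m := Nat.pos_of_ne_zero hm.1.2
  have hn : Set.ncard {x : ℕ | x ∈ S ∧ ∃ h : ℕ, h ∉ S ∧ x ≤ h} =
      ((range (F + 1)).filter (· ∈ S)).card := by
    rw [← Set.ncard_coe_finset]
    congr 1
    ext x
    simp only [Set.mem_ofPred_eq, coe_filter, mem_range]
    constructor
    · rintro ⟨h1, h, h2, h3⟩
      exact ⟨by have := hF' h h2; omega, h1⟩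
    · rintro ⟨h1, h2⟩
      exact ⟨h2, F, hF, by omega⟩
  have he' : (gens S).ncard = e := he.symm
  rw [hn, ← he']
  split_ifs at hbig with c
  · refine H51.wilf_large S F m hb hm0 hm.1.1 (fun x hx h0 => hm.2 ⟨hx, h0⟩) ?_
    rw [he']
    exact hbig.imp_left fun h => le_trans (le_of_eq (by ring)) h
  · refine H93.wilf_linear S F m hb hm0 hm.1.1 (fun x hx h0 => hm.2 ⟨hx, h0⟩) (by omega) ?_
    rw [he']
    exact hbig.imp_right fun h => by rwa [pow_mul]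

end Pool.Agent.Results.MP_96f5a9_co.WilfLinearDepth
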